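import Mathlib

/-! Symmetric four-linear forms and quartic forms. -/

set_option autoImplicit false

namespace Pool.Agent.MP_e0214e_ag.H61

open MvPolynomial

/-- A symmetric tensor of order four. -/
structure Q4 (σ : Type) where
  t : σ → σ → σ → σ → ℂ
  s12 : ∀ i j k l, t i j k l = t j i k l
  s23 : ∀ i j k l, t i j k l = t i k j l
  s34 : ∀ i j k l, t i j k l = t i j l k

namespace Q4

variable {σ : Type} [Fintype σ] (q : Q4 σ) {A B : Type} [CommRing A] [Algebra ℂ A] [CommRing B]
  [Algebra ℂ B]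

/-- The four-linear form over any complex algebra. -/
def T (a b c d : σ → A) : A :=
  ∑ i, ∑ j, ∑ k, ∑ l, algebraMap ℂ A (q.t i j k l) * (a i * b j * c k * d l)

theorem T12 (a b c d : σ → A) : q.T a b c d = q.T b a c d := by
  unfold T
  rw [Finset.sum_comm]
  refine Finset.sum_congr rfl fun i _ => Finset.sum_congr rfl fun j _ =>
    Finset.sum_congr rfl fun k _ => Finset.sum_congr rfl fun l _ => ?_
  rw [q.s12]; ring

theorem T23 (a b c d : σ → A) : q.T a b c d = q.T a c b d := by
  unfold T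
  refine Finset.sum_congr rfl fun i _ => ?_
  rw [Finset.sum_comm]
  refine Finset.sum_congr rfl fun j _ =>
    Finset.sum_congr rfl fun k _ => Finset.sum_congr rfl fun l _ => ?_
  rw [q.s23]; ring

theorem T34 (a b c d : σ → A) : q.T a b c d = q.T a b d c := by
  unfold T
  refine Finset.sum_congr rfl fun i _ => Finset.sum_congr rfl fun j _ => ?_
  rw [Finset.sum_comm]
  refine Finset.sum_congr rfl fun k _ => Finset.sum_congr rfl fun l _ => ?_
  rw [q.s34]; ring

theorem add1 (a a' b c d : σ → A) : q.T (a + a') b c d = q.T a b c d + q.T a' b c d := by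
  simp only [T, Pi.add_apply, add_mul, mul_add, Finset.sum_add_distrib]

theorem smul1 (r : A) (a b c d : σ → A) : q.T (r • a) b c d = r * q.T a b c d := by
  simp only [T, Pi.smul_apply, smul_eq_mul, Finset.mul_sum]
  refine Finset.sum_congr rfl fun i _ => Finset.sum_congr rfl fun j _ =>
    Finset.sum_congr rfl fun k _ => Finset.sum_congr rfl fun l _ => ?_
  ring

theorem add2 (a b b' c d : σ → A) : q.T a (b + b') c d = q.T a b c d + q.T a b' c d := by
  rw [T12, add1, q.T12 b, q.T12 b']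

theorem smul2 (r : A) (a b c d : σ → A) : q.T a (r • b) c d = r * q.T a b c d := by
  rw [T12, smul1, q.T12 b]

theorem add3 (a b c c' d : σ → A) : q.T a b (c + c') d = q.T a b c d + q.T a b c' d := by
  rw [T23, add2, q.T23 a c, q.T23 a c']

theorem smul3 (r : A) (a b c d : σ → A) : q.T a b (r • c) d = r * q.T a b c d := by
  rw [T23, smul2, q.T23 a c]

theorem add4 (a b c d d' : σ → A) : q.T a b c (d + d') = q.T a b c d + q.T a b c d' := by
  rw [T34, add3, q.T34 a b d, q.T34 a b d']

theorem smul4 (r : A) (a b c d : σ → A) : q.T a b c (r • d) = r * q.T a b c d := by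
  rw [T34, smul3, q.T34 a b d]

theorem sub1 (a a' b c d : σ → A) : q.T (a - a') b c d = q.T a b c d - q.T a' b c d := by
  rw [eq_sub_iff_add_eq, ← add1, sub_add_cancel]

theorem sub2 (a b b' c d : σ → A) : q.T a (b - b') c d = q.T a b c d - q.T a b' c d := by
  rw [eq_sub_iff_add_eq, ← add2, sub_add_cancel]

theorem sub3 (a b c c' d : σ → A) : q.T a b (c - c') d = q.T a b c d - q.T a b c' d := by
  rw [eq_sub_iff_add_eq, ← add3, sub_add_cancel]

theorem sub4 (a b c d d' : σ → A) : q.T a b c (d - d') = q.T a b c d - q.T a b c d' := by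
  rw [eq_sub_iff_add_eq, ← add4, sub_add_cancel]

theorem zero4 (a b c : σ → A) : q.T a b c 0 = 0 := by simp [T]

/-- The last slot as a linear form. -/
def L (a b c : σ → A) : (σ → A) →ₗ[A] A where
  toFun := q.T a b c
  map_add' := q.add4 a b c
  map_smul' r d := q.smul4 r a b c d

theorem L_apply (a b c d : σ → A) : q.L a b c d = q.T a b c d := rfl

theorem T_eq_sum [DecidableEq σ] (a b c d : σ → A) :
    q.T a b c d = ∑ l, d l * q.T a b c (Pi.single l 1) := by
  conv_lhs => rw [← L_apply, ← Finset.univ_sum_single d, map_sum]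
  refine Finset.sum_congr rfl fun l _ => ?_
  rw [L_apply, ← smul4, ← Pi.single_smul, smul_eq_mul, mul_one]

theorem map {F : Type} [FunLike F A B] [AlgHomClass F ℂ A B] (φ : F) (a b c d : σ → A) :
    φ (q.T a b c d) = q.T (φ ∘ a) (φ ∘ b) (φ ∘ c) (φ ∘ d) := by
  simp only [T, map_sum, map_mul, AlgHomClass.commutes, Function.comp]

theorem der (D : Derivation ℂ A A) (a b c d : σ → A) :
    D (q.T a b c d) = q.T (D ∘ a) b c d + q.T a (D ∘ b) c d + q.T a b (D ∘ c) d
      + q.T a b c (D ∘ d) := by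
  simp only [T, map_sum, Derivation.leibniz, Derivation.map_algebraMap, smul_eq_mul, mul_zero,
    add_zero, Function.comp, ← Finset.sum_add_distrib]
  refine Finset.sum_congr rfl fun i _ => Finset.sum_congr rfl fun j _ =>
    Finset.sum_congr rfl fun k _ => Finset.sum_congr rfl fun l _ => ?_
  ring

@[fun_prop]
theorem cont {Y : Type} [TopologicalSpace Y] [TopologicalSpace A] [IsTopologicalRing A]
    {a b c d : Y → σ → A} (ha : Continuous a) (hb : Continuous b) (hc : Continuous c)
    (hd : Continuous d) : Continuous fun y => q.T (a y) (b y) (c y) (d y) := by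
  unfold T
  fun_prop

/-- The quartic form. -/
noncomputable def f : MvPolynomial σ ℂ := q.T X X X X

theorem aeval_f (y : σ → A) : aeval y q.f = q.T y y y y := by
  have : (aeval y : MvPolynomial σ ℂ →ₐ[ℂ] A) ∘ X = y := funext fun i => by
    simp only [Function.comp, aeval_X]
  rw [f, map, this]

theorem eval_f (y : σ → ℂ) : eval y q.f = q.T y y y y := by
  rw [← aeval_f, aeval_eq_eval]

theorem isHomogeneous_f : q.f.IsHomogeneous 4 := by
  unfold f T
  refine IsHomogeneous.sum _ _ _ fun i _ => IsHomogeneous.sum _ _ _ fun j _ =>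
    IsHomogeneous.sum _ _ _ fun k _ => IsHomogeneous.sum _ _ _ fun l _ => ?_
  exact (isHomogeneous_C _ _).mul ((((isHomogeneous_X _ i).mul (isHomogeneous_X _ j)).mul
    (isHomogeneous_X _ k)).mul (isHomogeneous_X _ l))

theorem pderiv_f [DecidableEq σ] (i : σ) : pderiv i q.f = 4 * q.T X X X (Pi.single i 1) := by
  have : (pderiv i : Derivation ℂ (MvPolynomial σ ℂ) (MvPolynomial σ ℂ)) ∘ X = Pi.single i 1 := by
    funext j
    simp only [Function.comp, pderiv_X, Pi.single_apply]
  rw [f, der, this, q.T12 (Pi.single i 1), q.T23 X (Pi.single i 1), q.T34 X X (Pi.single i 1)]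
  ring

/-- Smoothness over a field. -/
def Sm (K : Type) [Field K] [Algebra ℂ K] : Prop :=
  ∀ y : σ → K, y ≠ 0 → q.T y y y y = 0 → ∃ w, q.T y y y w ≠ 0

/-- Pull back along a linear map given by the images of the basis vectors. -/
def pull {τ : Type} (m : τ → σ → ℂ) : Q4 τ where
  t i j k l := q.T (m i) (m j) (m k) (m l)
  s12 _ _ _ _ := q.T12 _ _ _ _
  s23 _ _ _ _ := q.T23 _ _ _ _
  s34 _ _ _ _ := q.T34 _ _ _ _

end Q4

/-- The linear map with given images of the basis vectors. -/
def lin {σ τ A : Type} [Fintype τ] [CommRing A] [Algebra ℂ A] (m : τ → σ → ℂ) (a : τ → A) :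
    σ → A := fun s => ∑ i, algebraMap ℂ A (m i s) * a i

theorem Q4.pull_T {σ τ A : Type} [Fintype σ] [Fintype τ] [CommRing A] [Algebra ℂ A] (q : Q4 σ)
    (m : τ → σ → ℂ) (a b c d : τ → A) :
    (q.pull m).T a b c d = q.T (lin m a) (lin m b) (lin m c) (lin m d) := by
  have h : ∀ a : τ → A, lin m a = ∑ i, a i • (algebraMap ℂ A ∘ m i) := fun a => by
    funext s
    simp only [lin, Finset.sum_apply, Pi.smul_apply, Function.comp, smul_eq_mul, mul_comm]
  have h4 : ∀ a b c d, q.T a b c (lin m d) = ∑ l, d l * q.T a b c (algebraMap ℂ A ∘ m l) :=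
    fun a b c d => by
      rw [← q.L_apply, h, map_sum]
      simp only [q.L_apply, q.smul4]
  have h3 : ∀ a b c d, q.T a b (lin m c) d = ∑ l, c l * q.T a b (algebraMap ℂ A ∘ m l) d :=
    fun a b c d => by simp only [q.T34 a b _ d, h4]
  have h2 : ∀ a b c d, q.T a (lin m b) c d = ∑ l, b l * q.T a (algebraMap ℂ A ∘ m l) c d :=
    fun a b c d => by simp only [q.T23 a _ c d, h3]
  have h1 : ∀ a b c d, q.T (lin m a) b c d = ∑ l, a l * q.T (algebraMap ℂ A ∘ m l) b c d :=
    fun a b c d => by simp only [q.T12 _ b c d, h2]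
  rw [h1, Q4.T]
  refine Finset.sum_congr rfl fun i _ => ?_
  rw [h2, Finset.mul_sum]
  refine Finset.sum_congr rfl fun j _ => ?_
  rw [h3, Finset.mul_sum, Finset.mul_sum]
  refine Finset.sum_congr rfl fun k _ => ?_
  rw [h4, Finset.mul_sum, Finset.mul_sum, Finset.mul_sum]
  refine Finset.sum_congr rfl fun l _ => ?_
  have := q.map (Algebra.ofId ℂ A) (m i) (m j) (m k) (m l)
  change algebraMap ℂ A (q.T (m i) (m j) (m k) (m l)) = q.T (algebraMap ℂ A ∘ m i)
    (algebraMap ℂ A ∘ m j) (algebraMap ℂ A ∘ m k) (algebraMap ℂ A ∘ m l) at this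
  rw [← this]
  change algebraMap ℂ A (q.T (m i) (m j) (m k) (m l)) * _ = _
  ring

theorem pderiv_comm' {σ : Type} (i j : σ) (p : MvPolynomial σ ℂ) :
    pderiv i (pderiv j p) = pderiv j (pderiv i p) := by
  classical
  induction p using MvPolynomial.induction_on with
  | C a => simp
  | add p q hp hq => simp only [map_add, hp, hq]
  | mul_X p k h =>
    simp only [Derivation.leibniz, smul_eq_mul, map_add, pderiv_X, Pi.single_apply, h]
    split_ifs <;> simp <;> ring

theorem exists_Q4 {σ : Type} [Fintype σ] {g : MvPolynomial σ ℂ} (hg : g.IsHomogeneous 4) :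
    ∃ q : Q4 σ, q.f = g := by
  classical
  have e : ∀ {n : ℕ} {p : MvPolynomial σ ℂ}, p.IsHomogeneous (n + 1) →
      p = C ((n + 1 : ℂ)⁻¹) * ∑ i, X i * pderiv i p := fun {n p} hp => by
    have h0 : (n + 1 : ℂ) ≠ 0 := Nat.cast_add_one_ne_zero n
    rw [hp.sum_X_mul_pderiv, nsmul_eq_mul, ← mul_assoc, ← map_natCast C, ← map_mul]
    push_cast
    rw [inv_mul_cancel₀ h0, map_one, one_mul]
  refine ⟨⟨fun i j k l => coeff 0 (pderiv l (pderiv k (pderiv j (pderiv i g)))) / 24,
    fun i j k l => by rw [pderiv_comm' j i], fun i j k l => by rw [pderiv_comm' k j],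
    fun i j k l => by rw [pderiv_comm' l k]⟩, ?_⟩
  have h1 : ∀ i, (pderiv i g).IsHomogeneous 3 := fun i => hg.pderiv
  have h2 : ∀ i j, (pderiv j (pderiv i g)).IsHomogeneous 2 := fun i j => (h1 i).pderiv
  have h3 : ∀ i j k, (pderiv k (pderiv j (pderiv i g))).IsHomogeneous 1 :=
    fun i j k => (h2 i j).pderiv
  have h4 : ∀ i j k l, pderiv l (pderiv k (pderiv j (pderiv i g))) =
      C (coeff 0 (pderiv l (pderiv k (pderiv j (pderiv i g))))) := fun i j k l =>
    totalDegree_eq_zero_iff_eq_C.1 (Nat.le_zero.1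
      (IsHomogeneous.totalDegree_le (n := 0) (h3 i j k).pderiv))
  symm
  conv_lhs => rw [e (n := 3) hg]
  rw [Q4.f, Q4.T, Finset.mul_sum]
  refine Finset.sum_congr rfl fun i _ => ?_
  conv_lhs => rw [e (n := 2) (h1 i)]
  simp only [Finset.mul_sum]
  refine Finset.sum_congr rfl fun j _ => ?_
  conv_lhs => rw [e (n := 1) (h2 i j)]
  simp only [Finset.mul_sum]
  refine Finset.sum_congr rfl fun k _ => ?_
  conv_lhs => rw [e (n := 0) (h3 i j k)]
  simp only [Finset.mul_sum]
  refine Finset.sum_congr rfl fun l _ => ?_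
  conv_lhs => rw [h4]
  generalize coeff 0 (pderiv l (pderiv k (pderiv j (pderiv i g)))) = c
  have : c / 24 = ((3 : ℕ) + 1 : ℂ)⁻¹ * ((2 : ℕ) + 1 : ℂ)⁻¹ * ((1 : ℕ) + 1 : ℂ)⁻¹ *
      ((0 : ℕ) + 1 : ℂ)⁻¹ * c := by push_cast; ring
  rw [algebraMap_eq, this]
  simp only [map_mul]
  ring

end Pool.Agent.MP_e0214e_ag.H61
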